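import Pool.Agent.Y839.Mon.Names

/-!
# Random monster groups and biautomatic groups

For an arbitrary sequence of finite graphs, infinitely many of which contain a cycle, almost every
random monster group has only homomorphisms with at most two values to biautomatic groups,
simultaneously for all biautomatic groups and also on subgroups of finite index. Conversely
super-rigidity with respect to one countable group with an element of infinite order requires
infinitely many graphs with a cycle.
-/

set_option autoImplicit false

namespace Pool.Agent.Results.MP_ddde08_al.AllBiautomatic

open MeasureTheory Pool.Agent.H862R3.Monster Pool.Agent.Y839.Mon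

universe u

/-- (1) The standing assumptions of the problem imply that infinitely many of the graphs contain a
cycle. (2) If infinitely many of the graphs contain a cycle, then super-rigidity and hereditary
super-rigidity hold with respect to every biautomatic group, and for almost every labelling,
simultaneously for all biautomatic groups `G`: every homomorphism from a subgroup of finite index
to `G` takes at most two values; the subgroups of finite index have index at most `2`; the same
null set works for all linear groups over fields, all residually finite groups and all subgroups of
finitely presented groups. (3) For every countable group `G` with an element of infinite order,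
super-rigidity with respect to `G`, hereditary super-rigidity with respect to `G`, and the
existence of infinitely many graphs with a cycle are equivalent. -/
theorem result :
    StandingInfCyc ∧
    ∀ (k j : ℕ) (hk : 2 ≤ k) (_ : 1 ≤ j)
      (V : ℕ → Type) [∀ n, Finite (V n)] (Ω : ∀ n, SimpleGraph (V n)),
      (InfCyc Ω →
        (∀ (G : Type u) [Group G], IsBiautomatic G →
          SuperRigidFamily (Tpow k j hk) Ω G ∧ Hered (Tpow k j hk) Ω G) ∧
        AlmostAllBiautomatic.{u} (Tpow k j hk) Ω) ∧
      ∀ (G : Type u) [Group G] [Countable G], (∃ g : G, ¬ IsOfFinOrder g) →
        Crit (Tpow k j hk) Ω G := by
  refine ⟨standingInfCyc, ?_⟩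
  intro k j hk hj V _ Ω
  refine ⟨?_, ?_⟩
  · intro hΩ
    refine ⟨?_, ?_⟩
    · intro G _ hG
      have := hG.countable
      have h := hereditary hk hΩ (good_Tpow hk hj) (quot_mem_Ev_Tpow hk) G
      exact ⟨family_of_superRigid _ (superRigid_of_hereditary _ h), h⟩
    · have h := uni hk hΩ (good_Tpow hk hj) (quot_mem_Ev_Tpow hk)
        (fun _ : Unit => PUnit.{u + 1})
      unfold AlmostAll at h
      unfold AlmostAllBiautomatic
      filter_upwards [h] with α hα
      exact ⟨hα.1, fun G _ hG => hα.1.2 G (tame_of_biautomatic hG)⟩
  · intro G _ _ hG
    exact crit hk (good_Tpow hk hj) (quot_mem_Ev_Tpow hk) j (pow_mem_Tpow j hk) _ hG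

end Pool.Agent.Results.MP_ddde08_al.AllBiautomatic
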